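import Mathlib
import Pool.Agent.Work.MP_4c4335_nt.DPV
import Pool.Agent.Work.MP_4c4335_nt_helper98.IfFin

/-!
# Block FIN: from the windows to the exponential lower bound
-/

namespace Pool.Agent.Work.MP_4c4335_nt_helper98

open Finset Polynomial Filter Real MeasureTheory
open Pool.Agent.Work.MP_4c4335_nt

/-- all targets are hit by polynomials of linear size -/
lemma hit_linear {c : ℝ} (hc : 0 < c) {θ : ℝ} (hz : DioZ c (zpt θ)) {B : ℕ}
    (hP : ∀ᶠ k : ℕ in atTop, ∃ P : ℤ[X], Adm k B P ∧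
      Real.exp (-((k:ℝ) + 1)) < ‖ev P (zpt θ)‖ ∧ ‖ev P (zpt θ)‖ ≤ Real.exp (-(k:ℝ))) :
    ∃ A : ℝ, 1 ≤ A ∧ ∀ s : ℕ, Hit (zpt θ) s (A * s + A) := by
  obtain ⟨K0, hK0⟩ := eventually_atTop.mp hP
  obtain ⟨n1, hn1, hH1⟩ := exists_hit hc hz (K0 + 1)
  obtain ⟨n2, hn2, hH2⟩ := exists_hit hc hz 2
  have hB0 : (0:ℝ) ≤ B := Nat.cast_nonneg B
  refine ⟨n1 + 8 * B * n2 + n2 + 8, by nlinarith [mul_nonneg hB0 (by linarith : (0:ℝ) ≤ n2)], ?_⟩
  have hBn : 0 ≤ 8 * (B:ℝ) * n2 := by positivity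
  intro s w hw1 hw2
  have hs0 : (0:ℝ) ≤ s := Nat.cast_nonneg s
  set A := n1 + 8 * B * n2 + n2 + 8 with hA
  have hA0 : 0 ≤ A := by linarith
  have hAs : 0 ≤ A * s := mul_nonneg hA0 hs0
  have hwpos : 0 < ‖w‖ := lt_of_lt_of_le (Real.exp_pos _) hw1
  have hlog0 : 0 ≤ -Real.log ‖w‖ := by
    have := Real.log_nonpos hwpos.le hw2
    linarith
  have hlogs : -Real.log ‖w‖ ≤ s := by
    have := (Real.le_log_iff_exp_le hwpos).mpr hw1
    linarith
  set k := ⌊-Real.log ‖w‖⌋₊ with hk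
  have hk1 : (k:ℝ) ≤ -Real.log ‖w‖ := Nat.floor_le hlog0
  have hk2 : -Real.log ‖w‖ < k + 1 := Nat.lt_floor_add_one _
  have hwk : ‖w‖ ≤ Real.exp (-(k:ℝ)) := by
    rw [← Real.log_le_iff_le_exp hwpos]; linarith
  have hwk2 : Real.exp (-((k:ℝ) + 1)) < ‖w‖ := by
    rw [← Real.lt_log_iff_exp_lt hwpos]; linarith
  by_cases hkK : k ≤ K0
  · obtain ⟨P, h1, h2, h3⟩ := hH1 w (by
      refine le_trans ?_ hwk2.le
      apply Real.exp_le_exp.mpr
      push_cast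
      have : (k:ℝ) ≤ K0 := by exact_mod_cast hkK
      linarith) hw2
    exact ⟨P, by linarith, by linarith, h3⟩
  · push Not at hkK
    obtain ⟨j, hj⟩ : ∃ j, k = j + 1 := ⟨k - 1, by omega⟩
    obtain ⟨P, hPa, hP1, hP2⟩ := hK0 j (by omega)
    have hkj : (k:ℝ) = (j:ℝ) + 1 := by rw [hj]; push_cast; ring
    set u := ev P (zpt θ) with hu
    have hupos : 0 < ‖u‖ := lt_trans (Real.exp_pos _) hP1
    have hu0 : u ≠ 0 := norm_pos_iff.mp hupos
    have hr1 : ‖w / u‖ ≤ 1 := by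
      rw [norm_div, div_le_one hupos]
      refine hwk.trans ?_
      rw [hkj]
      exact hP1.le
    have hr2 : Real.exp (-((2:ℕ):ℝ)) ≤ ‖w / u‖ := by
      rw [norm_div, le_div_iff₀ hupos]
      calc Real.exp (-((2:ℕ):ℝ)) * ‖u‖ ≤ Real.exp (-((2:ℕ):ℝ)) * Real.exp (-(j:ℝ)) := by gcongr
        _ = Real.exp (-((k:ℝ) + 1)) := by
            rw [← Real.exp_add, hkj]
            congr 1
            push_cast
            ring
        _ ≤ ‖w‖ := hwk2.le
    obtain ⟨Q, h1, h2, h3⟩ := hH2 (w / u) hr2 hr1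
    have hjs : (j:ℝ) ≤ s := by linarith
    have hj0 : (0:ℝ) ≤ j := Nat.cast_nonneg j
    refine ⟨P * Q, ?_, ?_, ?_⟩
    · have h4 : (P * Q).natDegree ≤ P.natDegree + Q.natDegree := natDegree_mul_le
      have h5 : (((P * Q).natDegree : ℕ) : ℝ) ≤ P.natDegree + Q.natDegree := by exact_mod_cast h4
      have h6 : (P.natDegree : ℝ) ≤ 8 * j := by
        have := hPa.1
        have h7 : P.natDegree ≤ 8 * j := this.le
        exact_mod_cast h7
      have h8 : 8 * (j:ℝ) ≤ A * s := by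
        calc 8 * (j:ℝ) ≤ 8 * s := by linarith
          _ ≤ A * s := by
            apply mul_le_mul_of_nonneg_right _ hs0
            linarith
      linarith
    · have h4 := l1_mul_le P Q
      have h5 : l1 P ≤ ((8 * j : ℕ) : ℝ) * B := l1_le_of_coeff_le hPa.1 hPa.2
      have h6 : 0 ≤ l1 Q := l1D_nonneg _ _
      have h7 : l1 P * l1 Q ≤ (((8 * j : ℕ) : ℝ) * B) * n2 := by
        apply mul_le_mul h5 h2 h6 (by positivity)
      have h8 : (((8 * j : ℕ) : ℝ) * B) * n2 = (8 * B * n2) * j := by push_cast; ring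
      have h9 : (8 * B * n2) * (j:ℝ) ≤ A * s := by
        calc (8 * B * n2) * (j:ℝ) ≤ (8 * B * n2) * s := by gcongr
          _ ≤ A * s := by
            apply mul_le_mul_of_nonneg_right _ hs0
            linarith
      linarith
    · have h4 : ev (P * Q) (zpt θ) - w = u * (ev Q (zpt θ) - w / u) := by
        rw [mul_sub, mul_div_cancel₀ _ hu0, hu]
        congr 1
        rw [ev, ev, ev, map_mul]
      rw [h4, norm_mul]
      calc ‖u‖ * ‖ev Q (zpt θ) - w / u‖ ≤ ‖u‖ * (‖w / u‖ / 50) := by gcongr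
        _ = ‖w‖ / 50 := by
            rw [norm_div]
            field_simp

theorem FIN : Stmt_FIN := by
  intro hAE
  filter_upwards [ae_restrict_of_ae (s := Set.Ico (0:ℝ) (2 * π)) hAE,
    ae_restrict_mem measurableSet_Ico] with θ h1 h2
  have h3 : θ ∈ Set.Icc (0:ℝ) 7 := ⟨h2.1, by
    have := h2.2
    linarith [Real.pi_lt_d2]⟩
  obtain ⟨c, hc, hz, B, hB, hP⟩ := h1 h3
  obtain ⟨A, hA, hhit⟩ := hit_linear hc hz hP
  refine ⟨1 / (4 * A), by positivity, ?_⟩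
  filter_upwards [eventually_ge_atTop ⌈8 * A⌉₊] with n hn
  have hn' : 8 * A ≤ n := Nat.ceil_le.mp hn
  apply le_csSup (bddAbove_DPV n θ)
  refine ⟨Real.exp_pos _, ?_⟩
  apply hasDPV_of_hit (hhit ⌈1 / (4 * A) * (n:ℝ)⌉₊)
  · have h4 : (⌈1 / (4 * A) * (n:ℝ)⌉₊ : ℝ) ≤ 1 / (4 * A) * n + 1 :=
      (Nat.ceil_lt_add_one (by positivity)).le
    calc 2 * (A * (⌈1 / (4 * A) * (n:ℝ)⌉₊ : ℝ) + A)
        ≤ 2 * (A * (1 / (4 * A) * n + 1) + A) := by gcongr
      _ = n / 2 + 4 * A := by field_simp; ring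
      _ ≤ n := by linarith
  · rw [Real.log_exp]
    exact Nat.le_ceil _

end Pool.Agent.Work.MP_4c4335_nt_helper98
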