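import Mathlib
import Pool.Agent.Work.MP_4c4335_nt_helper98.Interface

/-!
# Block NF, part 1: Hasse derivatives of flat polynomials and the roots of the common divisor
-/

namespace Pool.Agent.Work.MP_4c4335_nt_helper98

open Finset Polynomial Filter Real MeasureTheory
open Pool.Agent.Work.MP_4c4335_nt

lemma map_hasseDeriv_int (F : ℤ[X]) (j : ℕ) :
    (hasseDeriv j F).map (Int.castRingHom ℂ) = hasseDeriv j (F.map (Int.castRingHom ℂ)) := by
  ext n
  rw [coeff_map, hasseDeriv_coeff, hasseDeriv_coeff, coeff_map]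
  simp

lemma taylor_hasse_coeff (F : ℂ[X]) (z : ℂ) (j b : ℕ) :
    (taylor z (hasseDeriv j F)).coeff b
      = (((b + j).choose b : ℕ) : ℂ) * (taylor z F).coeff (b + j) := by
  rw [taylor_coeff, taylor_coeff]
  have h := congrArg (fun f => f F) (hasseDeriv_comp (R := ℂ) b j)
  simp only [LinearMap.comp_apply, LinearMap.smul_apply] at h
  rw [h, eval_smul, nsmul_eq_mul]

/-- flatness of an integer polynomial at `z` -/
def Flt (k : ℕ) (z : ℂ) (F : ℤ[X]) : Prop := ∀ i < 2 * hh k,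
  ‖(taylor z (F.map (Int.castRingHom ℂ))).coeff i‖ ≤
    Real.exp (-(19 / 20 * (k : ℝ))) * (Real.exp ((k : ℝ) / hh k)) ^ i

/-- flat polynomials with `8 k` coefficients of size at most `B` -/
def FJ (k B : ℕ) (z : ℂ) : Set ℤ[X] := {F | F.natDegree < 8 * k ∧ (∀ i, |F.coeff i| ≤ (B : ℤ)) ∧
  Flt k z F}

/-- Hasse derivatives of small order of flat polynomials -/
def FS (k B : ℕ) (z : ℂ) : Set ℤ[X] := {P | ∃ F ∈ FJ k B z, ∃ j ≤ (LL k) ^ 10, P = hasseDeriv j F}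

lemma FJ_subset_FS {k B : ℕ} {z : ℂ} {F : ℤ[X]} (hF : F ∈ FJ k B z) : F ∈ FS k B z :=
  ⟨F, hF, 0, Nat.zero_le _, by simp⟩

lemma natDegree_FS {k B : ℕ} {z : ℂ} {P : ℤ[X]} (hP : P ∈ FS k B z) : P.natDegree < 8 * k := by
  obtain ⟨F, hF, j, _, rfl⟩ := hP
  exact lt_of_le_of_lt ((natDegree_hasseDeriv_le F j).trans (Nat.sub_le _ _)) hF.1

lemma coeff_FS {k B : ℕ} {z : ℂ} {P : ℤ[X]} (hk : 1 ≤ k) (hP : P ∈ FS k B z) (i : ℕ) :
    |(P.coeff i : ℝ)| ≤ ((8 * k : ℕ) : ℝ) ^ ((LL k) ^ 10) * B := by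
  obtain ⟨F, hF, j, hj, rfl⟩ := hP
  rw [hasseDeriv_coeff]
  push_cast
  rw [abs_mul, Nat.abs_cast]
  have h8 : (1:ℝ) ≤ 8 * (k:ℝ) := by
    have : (1:ℝ) ≤ k := by exact_mod_cast hk
    linarith
  rcases lt_or_ge F.natDegree (i + j) with h | h
  · rw [coeff_eq_zero_of_natDegree_lt h]
    simp only [Int.cast_zero, abs_zero, mul_zero]
    positivity
  · have h1 : ((i + j).choose j : ℝ) ≤ (8 * (k:ℝ)) ^ ((LL k) ^ 10) := by
      have h2 : (i + j).choose j ≤ (8 * k) ^ j :=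
        (Nat.choose_le_pow _ _).trans (Nat.pow_le_pow_left (by have := hF.1; omega) j)
      have h3 : ((i + j).choose j : ℝ) ≤ (8 * (k:ℝ)) ^ j := by exact_mod_cast h2
      exact h3.trans (pow_le_pow_right₀ h8 hj)
    have h4 : |((F.coeff (i + j) : ℤ) : ℝ)| ≤ B := by
      have := hF.2.1 (i + j)
      exact_mod_cast this
    exact mul_le_mul h1 h4 (abs_nonneg _) (by positivity)

/-- the Taylor coefficients of the Hasse derivatives -/
lemma taylor_FS {k B : ℕ} {z : ℂ} {P : ℤ[X]} (hP : P ∈ FS k B z) (hL : (LL k) ^ 10 ≤ hh k)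
    {b : ℕ} (hb : b < hh k) :
    ‖(taylor z (P.map (Int.castRingHom ℂ))).coeff b‖ ≤
      ((2:ℝ) ^ (2 * hh k) * Real.exp (-(19 / 20 * (k : ℝ)))
        * (Real.exp ((k : ℝ) / hh k)) ^ ((LL k) ^ 10)) * (Real.exp ((k : ℝ) / hh k)) ^ b := by
  obtain ⟨F, hF, j, hj, rfl⟩ := hP
  rw [map_hasseDeriv_int, taylor_hasse_coeff, norm_mul, Complex.norm_natCast]
  set E := Real.exp ((k : ℝ) / hh k) with hE
  have hE1 : 1 ≤ E := Real.one_le_exp (by positivity)
  have h1 := hF.2.2 (b + j) (by omega)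
  rw [← hE] at h1
  have h2 : ((b + j).choose b : ℝ) ≤ 2 ^ (2 * hh k) := by
    have h3 : (b + j).choose b ≤ 2 ^ (b + j) := Nat.choose_le_two_pow _ _
    have h4 : 2 ^ (b + j) ≤ 2 ^ (2 * hh k) := Nat.pow_le_pow_right (by norm_num) (by omega)
    exact_mod_cast h3.trans h4
  have h5 : E ^ (b + j) ≤ E ^ ((LL k) ^ 10) * E ^ b := by
    rw [← pow_add]
    exact pow_le_pow_right₀ hE1 (by omega)
  calc ((b + j).choose b : ℝ) * ‖(taylor z (F.map (Int.castRingHom ℂ))).coeff (b + j)‖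
      ≤ 2 ^ (2 * hh k) * (Real.exp (-(19 / 20 * (k : ℝ))) * E ^ (b + j)) :=
        mul_le_mul h2 h1 (norm_nonneg _) (by positivity)
    _ ≤ 2 ^ (2 * hh k) * (Real.exp (-(19 / 20 * (k : ℝ))) * (E ^ ((LL k) ^ 10) * E ^ b)) := by
        gcongr
    _ = _ := by ring

lemma mm_pow_eq (g : ℤ[X]) (e : ℕ) : mm (g ^ e) = mm g ^ e := by
  induction e with
  | zero => simp [mm]
  | succ e ih =>
    rw [pow_succ, pow_succ, ← ih, mm, mm, mm, Polynomial.map_mul, mahlerMeasure_mul]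

/-- The nonzero roots of the common divisor are roots of unity. -/
lemma roots_FS (B : ℕ) (hB : 1 ≤ B) : ∀ᶠ k : ℕ in atTop,
    ∀ z : ℂ, ∀ P0 : ℤ[X], P0 ≠ 0 → P0.natDegree < 8 * k → (∀ i, |P0.coeff i| ≤ 1) →
      Flt k z P0 → ∀ G : ℤ[X], G.Monic → (∀ P ∈ FS k B z, G ∣ P) →
      ∀ α : ℂ, ev G α = 0 → α ≠ 0 → ∃ n, 0 < n ∧ α ^ n = 1 := by
  have hT : Tendsto (fun k : ℕ => k ^ 2) atTop atTop := tendsto_pow_atTop (by norm_num)
  filter_upwards [hT.eventually dobrowolski_log, eventually_ge_atTop 8, eventually_le_LL 512,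
    tendsto_log_nat.eventually_ge_atTop 1]
    with k h2 h5 h7 h8 z P0 hP0 hP0deg hP0c hP0f G hG hGdvd α hα hα0
  have hk8 : (8:ℝ) ≤ k := by exact_mod_cast h5
  have hint : IsIntegral ℤ α := ⟨G, hG, by simpa [ev, aeval_def] using hα⟩
  have hP0J : P0 ∈ FJ k B z := ⟨hP0deg, fun i => (hP0c i).trans (by exact_mod_cast hB), hP0f⟩
  set g := minpoly ℤ α with hg
  have hgG : g ∣ G := minpoly.isIntegrallyClosed_dvd hint hα
  have hgP : g ∣ P0 := hgG.trans (hGdvd P0 (FJ_subset_FS hP0J))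
  have hgne : g ≠ 0 := minpoly.ne_zero hint
  have hgirr : Irreducible g := minpoly.irreducible hint
  have hfin : FiniteMultiplicity g P0 := by
    apply FiniteMultiplicity.of_not_isUnit hgirr.not_isUnit hP0
  obtain ⟨Q, hQ, hQn⟩ := hfin.exists_eq_pow_mul_and_not_dvd
  set e := multiplicity g P0 with he
  have hQα : ev Q α ≠ 0 := by
    intro h0
    exact hQn (minpoly.isIntegrallyClosed_dvd hint h0)
  have hg0 : ev g α = 0 := minpoly.aeval ℤ α
  have hgd : ev (derivative g) α ≠ 0 :=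
    ev_deriv_ne_zero hint (mem_cj.mpr (mem_rts_minpoly hint))
  -- the multiplicity is large
  have hE0 : (LL k) ^ 10 < e := by
    by_contra hcon
    push Not at hcon
    have h10 : hasseDeriv e P0 ∈ FS k B z := ⟨P0, hP0J, e, hcon, rfl⟩
    obtain ⟨q, hq⟩ := hGdvd _ h10
    have h11 : ev (hasseDeriv e P0) α = 0 := by
      rw [hq, ev, map_mul]
      simp only [ev] at hα
      rw [hα, zero_mul]
    have h12 : ev (hasseDeriv e P0) α
        = (taylor α (P0.map (Int.castRingHom ℂ))).coeff e := by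
      rw [ev_eq_eval, map_hasseDeriv_int, taylor_coeff]
    rw [h12] at h11
    have h13 : P0.map (Int.castRingHom ℂ)
        = (g.map (Int.castRingHom ℂ)) ^ e * Q.map (Int.castRingHom ℂ) := by
      rw [← Polynomial.map_pow, ← Polynomial.map_mul]
      exact congrArg (fun p => Polynomial.map (Int.castRingHom ℂ) p) hQ
    rw [h13, taylor_coeff_pow_mul _ _ _ (by rw [← ev_eq_eval]; exact hg0) e, derivative_map,
      ← ev_eq_eval, ← ev_eq_eval] at h11
    exact (mul_ne_zero (pow_ne_zero _ hgd) hQα) h11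
  have hdvd : g ^ ((LL k) ^ 10) ∣ P0 :=
    (pow_dvd_pow g hE0.le).trans ⟨Q, hQ⟩
  have hmm1 : mm g ^ ((LL k) ^ 10) ≤ ((8 * k : ℕ) : ℝ) * 1 := by
    rw [← mm_pow_eq]
    exact (mm_le_of_dvd hdvd hP0).trans (mm_le_of_coeff_le hP0deg (fun i => by
      have := hP0c i
      exact_mod_cast this))
  set M := mm g with hM
  have hM1 : 1 ≤ M := one_le_mm hgne
  have hL1 : (1:ℝ) ≤ (LL k : ℝ) := by linarith
  have hL0 : (0:ℝ) < (LL k : ℝ) := by linarith
  have hlogM : (LL k : ℝ) ^ 10 * Real.log M ≤ 2 * LL k := by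
    have h10 := Real.log_le_log (by positivity) hmm1
    rw [Real.log_pow, mul_one] at h10
    push_cast at h10
    refine h10.trans ?_
    have h11 : (8 * (k:ℝ)) ≤ (k:ℝ) ^ 2 := by nlinarith
    have h12 := Real.log_le_log (by positivity) h11
    rw [Real.log_pow] at h12
    push_cast at h12
    have := log_le_LL k
    linarith
  have hdegT : g.natDegree ≤ k ^ 2 := by
    have h10 := natDegree_le_of_dvd hgP hP0
    have : 8 * k ≤ k ^ 2 := by nlinarith
    omega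
  have hlT : Real.log ((k ^ 2 : ℕ) : ℝ) = 2 * Real.log k := by
    push_cast; rw [Real.log_pow]; push_cast; ring
  have hM8 : (Real.log ((k ^ 2 : ℕ) : ℝ)) ^ 8 * Real.log M ≤ 1 := by
    have hlM : 0 ≤ Real.log M := Real.log_nonneg hM1
    have h10 : (Real.log ((k ^ 2 : ℕ) : ℝ)) ^ 8 ≤ (2 * (LL k : ℝ)) ^ 8 := by
      rw [hlT]
      have := log_le_LL k
      gcongr
    have h12 : (LL k : ℝ) ^ 9 * Real.log M ≤ 2 := by
      have h13 : (LL k : ℝ) * ((LL k : ℝ) ^ 9 * Real.log M) ≤ (LL k : ℝ) * 2 := by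
        calc (LL k : ℝ) * ((LL k : ℝ) ^ 9 * Real.log M) = (LL k : ℝ) ^ 10 * Real.log M := by ring
          _ ≤ 2 * (LL k : ℝ) := hlogM
          _ = (LL k : ℝ) * 2 := by ring
      exact le_of_mul_le_mul_left h13 hL0
    have h14 : (LL k : ℝ) * ((LL k : ℝ) ^ 8 * Real.log M) ≤ 2 := by
      calc (LL k : ℝ) * ((LL k : ℝ) ^ 8 * Real.log M) = (LL k : ℝ) ^ 9 * Real.log M := by ring
        _ ≤ 2 := h12
    have h15 : 0 ≤ (LL k : ℝ) ^ 8 * Real.log M := by positivity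
    have h16 : 512 * ((LL k : ℝ) ^ 8 * Real.log M) ≤ 2 := by nlinarith
    calc (Real.log ((k ^ 2 : ℕ) : ℝ)) ^ 8 * Real.log M
        ≤ (2 * (LL k : ℝ)) ^ 8 * Real.log M := by gcongr
      _ = 256 * ((LL k : ℝ) ^ 8 * Real.log M) := by ring
      _ ≤ 1 := by linarith
  have hM1' : M = 1 := h2 α hint hα0 hdegT hM8
  refine pow_eq_one_of_mahlerMeasure_eq_one (p := minpoly ℤ α) hM1' hα0 ?_
  rw [mem_aroots]
  exact ⟨minpoly.ne_zero hint, minpoly.aeval ℤ α⟩

end Pool.Agent.Work.MP_4c4335_nt_helper98
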