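import Mathlib
import Pool.Agent.Work.MP_4c4335_nt_h67.NF1

/-!
# Block NF: some large box of coefficients contains no flat difference
-/

namespace Pool.Agent.Work.MP_4c4335_nt_helper98

open Finset Polynomial Filter Real MeasureTheory
open Pool.Agent.Work.MP_4c4335_nt

/-- the final numerical contradiction -/
lemma nf_num {k h N e B l10 : ℕ} {L C0 : ℝ} (hh : (h:ℝ) = L ^ 12) (h10 : (l10 : ℝ) = L ^ 10)
    (hL : 1000 ≤ L) (hk : 10 ≤ k) (hN : N ≤ 16 * k) (hN1 : 1 ≤ N) (hkL : 20 * L ^ 12 ≤ k)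
    (hlog : Real.log ((16 * k : ℕ) : ℝ) ≤ 2 * L)
    (hB1 : 1 ≤ B) (hlogB : Real.log B ≤ L) (hCe : C0 * e ≤ k / 4)
    (hmain : Real.exp (-C0 * e) ^ h ≤ (N.factorial : ℝ) *
      ((∏ i ∈ range h, (2 * ((2:ℝ) ^ (2 * h) * Real.exp (-(19 / 20 * (k : ℝ)))
        * (Real.exp ((k : ℝ) / h)) ^ l10) * (Real.exp ((k:ℝ) / h)) ^ i)) *
        ((((8 * k : ℕ) : ℝ) ^ l10 * B) ^ (N - h)))) : False := by
  have hL0 : 0 < L := by linarith
  have hh0 : (0:ℝ) < h := by rw [hh]; positivity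
  have hk0 : (10:ℝ) ≤ k := by exact_mod_cast hk
  have hB0 : (1:ℝ) ≤ B := by exact_mod_cast hB1
  have hl2 : Real.log 2 ≤ 0.7 := by linarith [Real.log_two_lt_d9]
  have hkh : (k:ℝ) / h * l10 ≤ k / 1000 := by
    rw [hh, h10]
    have e1 : (k:ℝ) / L ^ 12 * L ^ 10 = k / L ^ 2 := by
      field_simp
    rw [e1]
    have e2 : (1000:ℝ) ≤ L ^ 2 := by nlinarith
    exact div_le_div_of_nonneg_left (by linarith) (by norm_num) e2
  have hprod : ∏ i ∈ range h, (2 * ((2:ℝ) ^ (2 * h) * Real.exp (-(19 / 20 * (k : ℝ)))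
        * (Real.exp ((k : ℝ) / h)) ^ l10) * (Real.exp ((k:ℝ) / h)) ^ i)
      ≤ Real.exp (h * (0.7 + 1.4 * h - 19 / 20 * k + k / 1000) + k * h / 2) := by
    have e1 : ∀ i ∈ range h, 2 * ((2:ℝ) ^ (2 * h) * Real.exp (-(19 / 20 * (k : ℝ)))
        * (Real.exp ((k : ℝ) / h)) ^ l10) * (Real.exp ((k:ℝ) / h)) ^ i
        ≤ Real.exp (0.7 + 1.4 * h - 19 / 20 * k + k / 1000 + (k / h) * i) := by
      intro i _
      have a1 : (2:ℝ) ≤ Real.exp 0.7 := by
        have := Real.exp_log (show (0:ℝ) < 2 by norm_num)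
        rw [← this, Real.exp_le_exp]
        linarith
      have a2 : (2:ℝ) ^ (2 * h) ≤ Real.exp (1.4 * h) := by
        calc (2:ℝ) ^ (2 * h) ≤ (Real.exp 0.7) ^ (2 * h) := by gcongr
          _ = Real.exp (1.4 * h) := by
            rw [← Real.exp_nat_mul]; push_cast; congr 1; ring
      have a3 : (Real.exp ((k : ℝ) / h)) ^ l10 ≤ Real.exp (k / 1000) := by
        rw [← Real.exp_nat_mul, Real.exp_le_exp, mul_comm]; exact hkh
      have a4 : (Real.exp ((k:ℝ) / h)) ^ i = Real.exp ((k / h) * i) := by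
        rw [← Real.exp_nat_mul, mul_comm]
      have a5 : Real.exp (0.7 + 1.4 * h - 19 / 20 * k + k / 1000 + (k / h) * i)
          = Real.exp 0.7 * (Real.exp (1.4 * h) * Real.exp (-(19 / 20 * (k:ℝ)))
            * Real.exp (k / 1000)) * Real.exp ((k / h) * i) := by
        rw [← Real.exp_add, ← Real.exp_add, ← Real.exp_add, ← Real.exp_add]
        congr 1; ring
      rw [a5, a4]
      gcongr
    refine (Finset.prod_le_prod (fun i _ => by positivity) e1).trans ?_
    rw [← Real.exp_sum, Real.exp_le_exp, Finset.sum_add_distrib, Finset.sum_const,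
      Finset.card_range, ← Finset.mul_sum, nsmul_eq_mul]
    have e2 : (∑ i ∈ range h, (i:ℝ)) * 2 ≤ (h:ℝ) * h := by
      have := Finset.sum_range_id_mul_two h
      have h2 : (∑ i ∈ range h, (i:ℝ)) * 2 = ((h * (h - 1) : ℕ) : ℝ) := by
        rw [← this]; push_cast; ring
      rw [h2]
      have : h * (h - 1) ≤ h * h := Nat.mul_le_mul_left _ (Nat.sub_le _ _)
      exact_mod_cast this
    have e3 : (k:ℝ) / h * ∑ i ∈ range h, (i:ℝ) ≤ k * h / 2 := by
      calc (k:ℝ) / h * ∑ i ∈ range h, (i:ℝ)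
          = (k:ℝ) / h * ((∑ i ∈ range h, (i:ℝ)) * 2) / 2 := by ring
        _ ≤ (k:ℝ) / h * ((h:ℝ) * h) / 2 := by gcongr
        _ = k * h / 2 := by field_simp
    linarith
  have hfac : (N.factorial : ℝ) ≤ Real.exp (16 * k * (2 * L)) := by
    have hN0 : (0:ℝ) < N := by exact_mod_cast hN1
    have h1 : (N.factorial : ℝ) ≤ (N:ℝ) ^ N := by exact_mod_cast Nat.factorial_le_pow N
    refine h1.trans ?_
    rw [← Real.exp_log (pow_pos hN0 N), Real.exp_le_exp, Real.log_pow]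
    have h2 : (N:ℝ) ≤ ((16 * k : ℕ) : ℝ) := by exact_mod_cast hN
    have h3 : Real.log N ≤ 2 * L := (Real.log_le_log hN0 h2).trans hlog
    push_cast at h2
    gcongr
  have hBp : ((((8 * k : ℕ) : ℝ) ^ l10 * B) ^ (N - h)) ≤
      Real.exp (16 * k * (2 * L ^ 11 + L)) := by
    have h8k : (0:ℝ) < ((8 * k : ℕ) : ℝ) := by push_cast; linarith
    have hB0' : (0:ℝ) < B := by linarith
    have hX : (0:ℝ) < ((8 * k : ℕ) : ℝ) ^ l10 * B := by positivity
    rw [← Real.exp_log (pow_pos hX (N - h)), Real.exp_le_exp, Real.log_pow,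
      Real.log_mul (by positivity) (by positivity), Real.log_pow]
    have h2 : ((N - h : ℕ) : ℝ) ≤ ((16 * k : ℕ) : ℝ) := by
      have : N - h ≤ 16 * k := by omega
      exact_mod_cast this
    push_cast at h2
    have h3 : 0 ≤ Real.log B := Real.log_nonneg hB0
    have h4 : Real.log ((8 * k : ℕ) : ℝ) ≤ 2 * L := by
      refine le_trans (Real.log_le_log h8k ?_) hlog
      push_cast; linarith
    have h4' : 0 ≤ Real.log ((8 * k : ℕ) : ℝ) := by
      apply Real.log_nonneg; push_cast; linarith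
    have h5 : (l10 : ℝ) * Real.log ((8 * k : ℕ) : ℝ) ≤ 2 * L ^ 11 := by
      rw [h10]
      calc L ^ 10 * Real.log ((8 * k : ℕ) : ℝ) ≤ L ^ 10 * (2 * L) := by gcongr
        _ = 2 * L ^ 11 := by ring
    have h6 : (0:ℝ) ≤ (l10 : ℝ) * Real.log ((8 * k : ℕ) : ℝ) := by positivity
    calc ((N - h : ℕ) : ℝ) * ((l10 : ℝ) * Real.log ((8 * k : ℕ) : ℝ) + Real.log B)
        ≤ (16 * k) * (2 * L ^ 11 + L) := by
          apply mul_le_mul h2 (by linarith) (by linarith) (by linarith)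
      _ = 16 * k * (2 * L ^ 11 + L) := by ring
  have hleft : Real.exp (-(k / 4 * h)) ≤ Real.exp (-C0 * e) ^ h := by
    rw [← Real.exp_nat_mul, Real.exp_le_exp]
    nlinarith
  have hfinal : Real.exp (-(k / 4 * h)) ≤
      Real.exp (16 * k * (2 * L) + (h * (0.7 + 1.4 * h - 19 / 20 * k + k / 1000) + k * h / 2)
        + 16 * k * (2 * L ^ 11 + L)) := by
    refine hleft.trans (hmain.trans ?_)
    calc _ ≤ Real.exp (16 * k * (2 * L))
          * (Real.exp (h * (0.7 + 1.4 * h - 19 / 20 * k + k / 1000) + k * h / 2)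
            * Real.exp (16 * k * (2 * L ^ 11 + L))) :=
          mul_le_mul hfac (mul_le_mul hprod hBp (by positivity) (Real.exp_pos _).le)
            (by positivity) (Real.exp_pos _).le
      _ = _ := by
          rw [← Real.exp_add, ← Real.exp_add]
          congr 1; ring
  rw [Real.exp_le_exp] at hfinal
  have h12 : 0 < L ^ 11 := by positivity
  have e1 : (h:ℝ) = L * L ^ 11 := by rw [hh]; ring
  have e2 : L ≤ L ^ 11 := by
    calc L = L ^ 1 := (pow_one _).symm
      _ ≤ L ^ 11 := pow_le_pow_right₀ (by linarith) (by norm_num)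
  have e3 : (k:ℝ) * L ≤ k * L ^ 11 := by gcongr
  have e4 : (1000:ℝ) * L ^ 11 ≤ h := by rw [e1]; gcongr
  have e5 : 1000 * (k * L ^ 11) ≤ k * (h:ℝ) := by
    calc 1000 * ((k:ℝ) * L ^ 11) = k * (1000 * L ^ 11) := by ring
      _ ≤ k * (h:ℝ) := by gcongr
  have e6 : 20 * (h:ℝ) * h ≤ k * h := by
    have : 20 * (h:ℝ) ≤ k := by rw [hh]; exact hkL
    gcongr
  have e7 : (0.7:ℝ) * h ≤ 0.07 * (k * h) := by nlinarith
  nlinarith

theorem NF : Stmt_NF := by
  intro c hc hc1
  set C0 := 3 * (Real.log (2 / c) + 10) with hC0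
  have hC0pos : 0 < C0 := by
    have : 0 ≤ Real.log (2 / c) := by
      apply Real.log_nonneg
      rw [le_div_iff₀ hc]; linarith
    positivity
  set B := ⌈Real.exp (12 * C0)⌉₊ with hBd
  have hB1 : 1 ≤ B := Nat.one_le_ceil_iff.mpr (Real.exp_pos _)
  have hlogB1 : 12 * C0 ≤ Real.log ((B:ℝ) + 1) := by
    rw [Real.le_log_iff_exp_le (by positivity)]
    have := Nat.le_ceil (Real.exp (12 * C0))
    rw [← hBd] at this
    linarith
  refine ⟨B, hB1, ?_⟩
  filter_upwards [roots_FS B hB1, eventually_ge_atTop 16, eventually_le_LL 1000,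
    eventually_le_LL (Real.log B), eventually_LL_pow_le 20 12, eventually_LL_pow_le 4 13]
    with k h2 h4 h5 h7 h8 h9 z hz
  by_contra hcon
  push Not at hcon
  have hz1 := hz.1
  set h := hh k with hhd
  set E := Real.exp ((k:ℝ) / h) with hE
  have hL0 : (0:ℝ) < LL k := by linarith
  have hhR : (h:ℝ) = (LL k : ℝ) ^ 12 := by rw [hhd, hh]; push_cast; ring
  have hk16 : (16:ℝ) ≤ k := by exact_mod_cast h4
  have hk0 : (0:ℝ) < k := by linarith
  have hLlog := log_le_LL k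
  -- a first polynomial
  obtain ⟨P0, hP0, hP0deg, hP0c, hP0f⟩ := hcon (5 * k) 1 (by omega) le_rfl hB1 (by
    push_cast
    have l2 : (0.69 : ℝ) ≤ Real.log 2 := by linarith [Real.log_two_gt_d9]
    have e1 : ((1:ℝ) + 1) ^ (5 * k) = Real.exp (Real.log 2 * (5 * k)) := by
      rw [show (1:ℝ) + 1 = 2 by norm_num, ← Real.rpow_natCast, Real.rpow_def_of_pos (by norm_num)]
      push_cast; rfl
    rw [e1, Real.exp_lt_exp]
    nlinarith)
  have hP0c' : ∀ i, |P0.coeff i| ≤ 1 := fun i => by exact_mod_cast hP0c i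
  have hP0J : P0 ∈ FJ k B z :=
    ⟨by omega, fun i => (hP0c' i).trans (by exact_mod_cast hB1), fun i hi => hP0f i hi⟩
  have hlc := abs_leadingCoeff_eq_one hP0 hP0c'
  have hP0S := FJ_subset_FS hP0J
  obtain ⟨G, hG, hGdvd, hGI⟩ := exists_G hP0S hlc
  have hGm : G.natDegree < 8 * k :=
    lt_of_le_of_lt (natDegree_le_of_dvd (hGdvd P0 hP0S) hP0) (natDegree_FS hP0S)
  have hroots := h2 z P0 hP0 (by omega) hP0c' (fun i hi => hP0f i hi) G hG hGdvd
  have hdegG : (G.natDegree : ℝ) * Real.log ((B:ℝ) + 1) ≤ 3 * k := by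
    by_contra hc2
    push Not at hc2
    obtain ⟨F, hF0, hFdeg, hFc, hFf⟩ := hcon G.natDegree B hGm.le hB1 le_rfl (by
      rw [← Real.log_lt_log_iff (by positivity) (by positivity), Real.log_exp, Real.log_pow]
      exact hc2)
    have hmem : F ∈ FJ k B z := ⟨by omega, hFc, fun i hi => hFf i hi⟩
    have := natDegree_le_of_dvd (hGdvd F (FJ_subset_FS hmem)) hF0
    omega
  have hlow := lower_of_cyclotomic hc hc1 hz _ G hG rfl hroots
  have hCe : C0 * G.natDegree ≤ k / 4 := by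
    have : (G.natDegree:ℝ) * (12 * C0) ≤ (G.natDegree:ℝ) * Real.log ((B:ℝ) + 1) := by gcongr
    linarith
  obtain ⟨N, hN, x, hx, hdet⟩ : ∃ N, N = 2 * (8 * k) - G.natDegree ∧ ∃ x : Fin N → ℤ[X],
      (∀ l, (x l).natDegree < N ∧ ∃ P ∈ FS k B z, ∃ j : ℕ,
        (X ^ j * P).natDegree < 2 * (8 * k) ∧ G * x l = X ^ j * P) ∧
      (Matrix.of fun l i : Fin N => (x l).coeff (i : ℕ)).det ≠ 0 :=
    ⟨_, rfl, exists_vectors hP0S hP0 (fun P hP => natDegree_FS hP) hG hGdvd hGI⟩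
  have hhk : 20 * h ≤ k := by
    have : 20 * (h:ℝ) ≤ k := by rw [hhR]; exact h8
    exact_mod_cast this
  have hhN : h ≤ N := by omega
  have hh1 : 1 ≤ (h:ℝ) := by
    rw [hhR]; exact one_le_pow₀ (by linarith)
  have hL10 : (LL k) ^ 10 ≤ h := by
    rw [hhd, hh]
    apply Nat.pow_le_pow_right _ (by norm_num)
    have : (0:ℝ) < (LL k : ℝ) := hL0
    exact_mod_cast this
  -- size of E
  have hE4 : 2 * (((2 * (8 * k) : ℕ) : ℝ)) ≤ E := by
    have e2 : 4 * (LL k : ℝ) ≤ (k:ℝ) / h := by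
      rw [hhR, le_div_iff₀ (by positivity)]
      calc 4 * (LL k : ℝ) * (LL k : ℝ) ^ 12 = 4 * (LL k : ℝ) ^ 13 := by ring
        _ ≤ (k:ℝ) := h9
    have e3 : (k:ℝ) ^ 4 ≤ E := by
      rw [hE, ← Real.exp_log (pow_pos hk0 4), Real.exp_le_exp, Real.log_pow]
      push_cast
      linarith
    have e4 : (16:ℝ) ^ 3 ≤ (k:ℝ) ^ 3 := by gcongr
    push_cast
    calc 2 * (2 * (8 * (k:ℝ))) = 32 * k := by ring
      _ ≤ 16 ^ 3 * k := by nlinarith
      _ ≤ (k:ℝ) ^ 3 * k := by gcongr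
      _ = (k:ℝ) ^ 4 := by ring
      _ ≤ E := e3
  set D' : ℝ := (2:ℝ) ^ (2 * h) * Real.exp (-(19 / 20 * (k : ℝ))) * E ^ ((LL k) ^ 10) with hD'
  have hD'0 : 0 ≤ D' := by positivity
  set X' : ℝ := ((8 * k : ℕ) : ℝ) ^ ((LL k) ^ 10) * B with hX'
  have hX'0 : 0 ≤ X' := by positivity
  set cc : ℕ → ℝ := fun i => if i < h then 2 * D' * E ^ i else X' with hcc
  have hbound := det_bound (N := N) (h := h) hhN G hG z x (fun l => (hx l).1) hdet
    (fun i => cc i)
    (by
      intro l i hi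
      obtain ⟨_, P, hP, j, hj, hPj⟩ := hx l
      simp only [hcc]
      rw [if_pos hi, hPj, Polynomial.map_mul, Polynomial.map_pow, map_X]
      by_cases hP00 : P = 0
      · rw [hP00]; simp; positivity
      have hjm : j ≤ 2 * (8 * k) := by
        rw [natDegree_mul (pow_ne_zero _ X_ne_zero) hP00, natDegree_X_pow] at hj
        omega
      exact taylor_shift_bound hz1 hD'0 (fun b hb => taylor_FS hP hL10 hb) hjm hE4 hi)
    (by
      intro l i hi
      obtain ⟨_, P, hP, j, hj, hPj⟩ := hx l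
      simp only [hcc]
      rw [if_neg (not_lt.mpr hi), hPj, coeff_X_pow_mul']
      split_ifs
      · exact coeff_FS (by omega) hP _
      · simpa using hX'0)
  have hprodeq : ∏ i : Fin N, cc i = (∏ i ∈ range h, (2 * D' * E ^ i)) *
        X' ^ (N - h) := by
    rw [Fin.prod_univ_eq_prod_range cc N, ← Finset.prod_range_mul_prod_Ico cc hhN]
    congr 1
    · apply Finset.prod_congr rfl
      intro i hi
      rw [Finset.mem_range] at hi
      simp only [hcc]
      rw [if_pos hi]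
    · rw [← Nat.card_Ico, ← Finset.prod_const]
      apply Finset.prod_congr rfl
      intro i hi
      rw [Finset.mem_Ico] at hi
      simp only [hcc]
      rw [if_neg (by omega)]
  rw [hprodeq] at hbound
  refine nf_num (k := k) (h := h) (N := N) (e := G.natDegree) (B := B) (l10 := (LL k) ^ 10)
    (L := LL k) (C0 := C0) hhR (by push_cast; ring) h5 (by omega) (by omega) (by omega) h8 ?_ hB1
    h7 hCe ?_
  · have e1 : ((16 * k : ℕ) : ℝ) ≤ (k:ℝ) ^ 2 := by
      push_cast; nlinarith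
    have hm0 : (0:ℝ) < ((16 * k : ℕ) : ℝ) := by push_cast; linarith
    have e2 := Real.log_le_log hm0 e1
    rw [Real.log_pow] at e2
    push_cast at e2 ⊢
    linarith
  · refine le_trans ?_ hbound
    gcongr

end Pool.Agent.Work.MP_4c4335_nt_helper98
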